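import Mathlib

set_option autoImplicit false

namespace Pool.Agent.Results.MP_bed60c_co.Counter

def join {V W : Type} (G : SimpleGraph V) (J : SimpleGraph W) : SimpleGraph (V ⊕ W) where
  Adj
    | Sum.inl a, Sum.inl b => G.Adj a b
    | Sum.inr a, Sum.inr b => J.Adj a b
    | _, _ => True
  symm := ⟨by rintro (a | a) (b | b) h <;> first | exact h.symm | trivial⟩
  loopless := ⟨by rintro (a | a) h <;> exact h.ne rfl⟩

def Small {V : Type} (H : SimpleGraph V) (S : Finset V) : Prop :=
  S.Nonempty ∧ {x | ∀ v ∈ S, H.Adj v x}.ncard ≤ S.card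

open Classical in
/-- What the cops at `c` see of a robber at `r`. -/
noncomputable def obs {V : Type} {k : ℕ} (H : SimpleGraph V) (c : Fin k → V) (r : V) : Option V :=
  if ∀ i, H.Adj (c i) r then none else some r

/-- Everything the cops have seen before choosing their position number `t`. -/
noncomputable def hist {V : Type} {k : ℕ} (H : SimpleGraph V) (s : List (Option V) → Fin k → V)
    (r : ℕ → V) : ℕ → List (Option V)
  | 0 => []
  | t + 1 => obs H (s (hist H s r t)) (r t) :: obs H (s (hist H s r t)) (r (t - 1)) :: hist H s r t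

def CopsWin {V : Type} (H : SimpleGraph V) (k : ℕ) : Prop :=
  ∃ s : List (Option V) → Fin k → V,
    (∀ o o' h i, s (o :: o' :: h) i = s h i ∨ H.Adj (s h i) (s (o :: o' :: h) i)) ∧
    ∀ r : ℕ → V, (∀ t, r (t + 1) = r t ∨ H.Adj (r t) (r (t + 1))) →
      ∃ t i, s (hist H s r t) i = r t ∨ s (hist H s r (t + 1)) i = r t

lemma konig {V : Type} [Finite V] (S : ℕ → V → Prop) (R : ℕ → V → V → Prop)
    (h0 : ∀ t, ∃ v, S t v) (h : ∀ t y, S (t + 1) y → ∃ x, S t x ∧ R t x y) :
    ∃ r : ℕ → V, ∀ t, S t (r t) ∧ R t (r t) (r (t + 1)) := by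
  have a : ∀ T y, S T y → ∃ p : ℕ → V, p T = y ∧ ∀ t < T, S t (p t) ∧ R t (p t) (p (t + 1)) := by
    intro T
    induction T with
    | zero => exact fun y _ => ⟨fun _ => y, rfl, fun t ht => absurd ht (by omega)⟩
    | succ T ih =>
      intro y hy
      obtain ⟨x, hx, e⟩ := h T y hy
      obtain ⟨p, hp, q⟩ := ih x hx
      refine ⟨fun t => if t ≤ T then p t else y, by simp, fun t ht => ?_⟩
      rcases Nat.lt_succ_iff_lt_or_eq.1 ht with l | rfl
      · simpa [l.le, Nat.succ_le_of_lt l] using q t l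
      · simpa [hp] using And.intro hx e
  have b : ∀ T, ∃ p : ℕ → V, ∀ t < T, S t (p t) ∧ R t (p t) (p (t + 1)) := fun T => by
    obtain ⟨y, hy⟩ := h0 T
    obtain ⟨p, -, q⟩ := a T y hy
    exact ⟨p, q⟩
  choose p hp using b
  have c : ∀ t, ∃ v, {T | p T t = v} ∈ Filter.hyperfilter ℕ := fun t => by
    obtain ⟨v, hv⟩ := ((Filter.hyperfilter ℕ).map fun T => p T t).eq_pure_of_finite
    have : {v} ∈ (Filter.hyperfilter ℕ).map fun T => p T t := by rw [hv]; simp
    exact ⟨v, this⟩
  choose r hr using c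
  refine ⟨r, fun t => ?_⟩
  have d : {T | t < T} ∈ Filter.hyperfilter ℕ :=
    Nat.hyperfilter_le_atTop (Filter.eventually_gt_atTop t)
  obtain ⟨T, ⟨e1, e2⟩, e3⟩ := Filter.nonempty_of_mem
    (Filter.inter_mem (Filter.inter_mem (hr t) (hr (t + 1))) d)
  rw [← (e1 : p T t = r t), ← (e2 : p T (t + 1) = r (t + 1))]
  exact hp T t e3

def nb : Fin 7 → ℕ := ![14, 97, 81, 49, 108, 90, 54]

def G : SimpleGraph (Fin 7) where
  Adj a b := (nb a).testBit b = true
  symm := ⟨by decide⟩
  loopless := ⟨by decide⟩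

abbrev V : Type := Fin 7 ⊕ Fin 2

abbrev H : SimpleGraph V := join G ⊤

def ix : V → ℕ
  | Sum.inl a => a
  | Sum.inr a => 7 + a

def N (v : V) : ℕ := [398, 481, 465, 433, 492, 474, 438, 383, 255].getD (ix v) 0

def A (u v : V) : Bool := (N u).testBit (ix v)

lemma adj (u v : V) : H.Adj u v ↔ A u v = true := by
  have : ∀ a b : Fin 7, ((nb a).testBit b = true ↔ A (Sum.inl a) (Sum.inl b) = true) := by decide
  have h2 : ∀ a b : Fin 2, (a ≠ b ↔ A (Sum.inr a) (Sum.inr b) = true) := by decide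
  have h3 : ∀ (a : Fin 7) (b : Fin 2), A (Sum.inl a) (Sum.inr b) = true ∧
    A (Sum.inr b) (Sum.inl a) = true := by decide
  rcases u with a | a <;> rcases v with b | b
  · exact this a b
  · exact iff_of_true trivial (h3 a b).1
  · exact iff_of_true trivial (h3 b a).2
  · exact h2 a b

def tab : List (List ℕ) :=
  [[388, 392], [16], [32], [64], [388, 392], [386, 392], [386, 388], [262, 266, 268], [134, 138, 
  140], [16], [448], [385, 448], [385, 416], [416, 448], [448], [416], [289, 321, 352], [161, 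
  193, 224], [32], [385, 448], [448], [385, 400], [448], [400, 448], [400], [273, 321, 336], 
  [145, 193, 208], [64], [385, 416], [385, 400], [416], [416], [400], [400, 416], [273, 289, 
  304], [145, 161, 176], [388, 392], [416, 448], [448], [416], [448], [392, 448], [388, 416], 
  [268, 296, 324, 352], [140, 168, 196, 224], [386, 392], [448], [400, 448], [400], [392, 448], 
  [448], [386, 400], [266, 280, 322, 336], [138, 152, 194, 208], [386, 388], [416], [400], [400, 
  416], [388, 416], [386, 400], [416], [262, 276, 290, 304], [134, 148, 162, 176], [262, 266, 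
  268], [289, 321, 352], [273, 321, 336], [273, 289, 304], [268, 296, 324, 352], [266, 280, 322, 
  336], [262, 276, 290, 304], [352], [14, 56, 84, 98], [134, 138, 140], [161, 193, 224], [145, 
  193, 208], [145, 161, 176], [140, 168, 196], [138, 152, 194], [134, 148, 162], [14, 56, 84, 
  98], [224]]

def T (a b : V) : List ℕ := tab.getD (9 * ix a + ix b) []

def VL : List V := (List.finRange 7).map Sum.inl ++ (List.finRange 2).map Sum.inr

lemma memVL : ∀ v : V, v ∈ VL := by rintro (a | a) <;> simp [VL]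

def eqb (u v : V) : Bool := Nat.beq (ix u) (ix v)

lemma eqb_iff : ∀ u v : V, eqb u v = true ↔ u = v := by decide

def mem (m : ℕ) (v : V) : Bool := m.testBit (ix v)

def pred (m m' : ℕ) (a b : V) (p : V → Bool) : Bool :=
  VL.all fun y => !mem m' y || VL.any fun x => mem m x && !eqb a x && !eqb b x &&
    (eqb y x || A x y) && p x

lemma c1 : (VL.all fun a => VL.all fun b => !(T a b).isEmpty && (T a b).all fun m =>
    VL.any (mem m) && (VL.all fun v => !mem m v || (!eqb a v && !eqb b v)) &&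
    ((VL.all fun v => !mem m v || (A a v && A b v)) ||
      VL.any fun w => VL.all fun v => !mem m v || eqb v w)) = true := by decide +kernel

lemma c2 : (VL.all fun a => VL.all fun b => (T a b).all fun m => VL.all fun a' =>
    !(eqb a' a || A a a') || VL.all fun b' => !(eqb b' b || A b b') || (T a' b').any fun m' =>
      pred m m' a' b' (fun x => A a' x && A b' x) ||
        VL.any fun w => mem m w && pred m m' a' b' (fun x => eqb x w)) = true := by decide +kernel

lemma nowin (k : ℕ) (f g : Fin k) (hk : ∀ i, i = f ∨ i = g) : ¬ CopsWin H k := by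
  rintro ⟨s, hs, hw⟩
  have inv : ∀ (c : Fin k → V) v, A (c f) v = true → A (c g) v = true → obs H c v = none := by
    intro c v h1 h2
    rw [obs, if_pos]
    intro i
    rcases hk i with rfl | rfl <;> rwa [adj]
  have d1 := c1
  have d2 := c2
  simp only [pred, List.all_eq_true, List.any_eq_true, memVL, true_imp_iff, true_and,
    Bool.and_eq_true, Bool.or_eq_true, Bool.not_eq_true', ← Bool.not_eq_true, eqb_iff,
    ← imp_iff_not_or, List.isEmpty_iff] at d1 d2
  have same : ∀ (c : Fin k → V), ∀ m ∈ T (c f) (c g), ∃ o, ∀ v, mem m v = true → obs H c v = o := by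
    intro c m hm
    rcases ((d1 _ _).2 m hm).2 with h | ⟨w, h⟩
    · exact ⟨none, fun v hv => inv c v (h v hv).1 (h v hv).2⟩
    · exact ⟨obs H c w, fun v hv => by rw [h v hv]⟩
  have step : ∀ z : {z : List (Option V) × ℕ × Option V // z.2.1 ∈ T (s z.1 f) (s z.1 g)},
      ∃ z' : {z : List (Option V) × ℕ × Option V // z.2.1 ∈ T (s z.1 f) (s z.1 g)},
      (∀ v, mem z.1.2.1 v = true → z'.1.1 = obs H (s z.1.1) v :: z.1.2.2 :: z.1.1) ∧
      ∀ y, mem z'.1.2.1 y = true → ∃ x, mem z.1.2.1 x = true ∧ ((∀ i, s z'.1.1 i ≠ x) ∧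
        (y = x ∨ H.Adj x y) ∧ obs H (s z'.1.1) x = z'.1.2.2) := by
    rintro ⟨⟨h, m, o⟩, hm⟩
    obtain ⟨o1, ho⟩ := same _ m hm
    obtain ⟨m', hm', e⟩ := d2 _ _ m hm (s (o1 :: o :: h) f) (by rw [← adj]; exact hs _ _ _ _)
      (s (o1 :: o :: h) g) (by rw [← adj]; exact hs _ _ _ _)
    rcases e with e | ⟨w, -, e⟩
    · refine ⟨⟨(o1 :: o :: h, m', none), hm'⟩, fun v hv => by rw [ho v hv], fun y hy => ?_⟩
      obtain ⟨x, ⟨⟨⟨x1, x2⟩, x3⟩, x4⟩, x5, x6⟩ := e y hy
      exact ⟨x, x1, fun i => by rcases hk i with rfl | rfl <;> assumption, by rwa [adj],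
        inv _ x x5 x6⟩
    · refine ⟨⟨(o1 :: o :: h, m', obs H (s (o1 :: o :: h)) w), hm'⟩, fun v hv => by rw [ho v hv],
        fun y hy => ?_⟩
      obtain ⟨x, ⟨⟨⟨x1, x2⟩, x3⟩, x4⟩, x5⟩ := e y hy
      exact ⟨x, x1, fun i => by rcases hk i with rfl | rfl <;> assumption, by rwa [adj],
        by rw [x5]⟩
  choose nx n1 n2 using step
  obtain ⟨m0, hm0⟩ := List.exists_mem_of_ne_nil _ (d1 (s [] f) (s [] g)).1
  obtain ⟨o0, ho0⟩ := same _ m0 hm0
  let z : ℕ → {z : List (Option V) × ℕ × Option V // z.2.1 ∈ T (s z.1 f) (s z.1 g)} :=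
    fun n => Nat.rec ⟨([], m0, o0), hm0⟩ (fun _ => nx) n
  obtain ⟨r, hr⟩ := konig (fun t v => mem (z t).1.2.1 v = true)
    (fun t x y => (∀ i, s (z (t + 1)).1.1 i ≠ x) ∧ (y = x ∨ H.Adj x y) ∧
      obs H (s (z (t + 1)).1.1) x = (z (t + 1)).1.2.2)
    (fun t => ((d1 _ _).2 _ (z t).2).1.1) fun t y hy => n2 (z t) y hy
  have hh : ∀ t, hist H s r t = (z t).1.1 := by
    intro t
    induction t with
    | zero => rfl
    | succ t ih =>
      rw [hist, ih]
      refine Eq.trans ?_ (n1 (z t) (r t) (hr t).1).symm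
      congr 2
      cases t with
      | zero => exact ho0 _ (hr 0).1
      | succ t => exact (hr t).2.2.2
  obtain ⟨t, i, e⟩ := hw r fun t => (hr t).2.2.1
  rw [hh, hh] at e
  rcases e with e | e
  · have := ((d1 _ _).2 _ (z t).2).1.2 _ (hr t).1
    rcases hk i with rfl | rfl
    exacts [this.1 e, this.2 e]
  · exact (hr t).2.1 i e

theorem result : ∃ (m n : ℕ) (G : SimpleGraph (Fin m)) (J : SimpleGraph (Fin n)),
    G.Connected ∧ J.Connected ∧
    ∃ S, Small (join G J) S ∧ ∀ k ≤ S.card, ¬ CopsWin (join G J) k := by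
  refine ⟨7, 2, G, ⊤, ?_, SimpleGraph.connected_top, {Sum.inl 0, Sum.inl 1}, ⟨by simp, ?_⟩, ?_⟩
  · have e : ∀ a b : Fin 7, (nb a).testBit b = true → G.Reachable a b := fun _ _ h =>
      SimpleGraph.Adj.reachable h
    have r : ∀ v, G.Reachable 0 v := by
      intro v
      fin_cases v
      exacts [.refl _, e 0 1 rfl, e 0 2 rfl, e 0 3 rfl, (e 0 2 rfl).trans (e 2 4 rfl),
        (e 0 1 rfl).trans (e 1 5 rfl), (e 0 1 rfl).trans (e 1 6 rfl)]
    exact ⟨fun u v => (r u).symm.trans (r v)⟩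
  · have : {x | ∀ v ∈ ({Sum.inl 0, Sum.inl 1} : Finset V), H.Adj v x} =
        (({Sum.inr 0, Sum.inr 1} : Finset V) : Set V) := by
      ext x
      simp only [adj, Set.mem_ofPred_eq, Finset.mem_coe]
      revert x; decide
    rw [this, Set.ncard_coe_finset]
    decide
  · intro k hk
    have : k ≤ 2 := hk
    interval_cases k
    · rintro ⟨s, -, h⟩
      obtain ⟨-, i, -⟩ := h (fun _ => Sum.inl 0) fun _ => Or.inl rfl
      exact i.elim0
    · exact nowin 1 0 0 (by decide)
    · exact nowin 2 0 1 (by decide)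

end Pool.Agent.Results.MP_bed60c_co.Counter
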